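import Pool.Agent.Helper25.FB.Spec

/-!
# Part END2: the end of the curve in a given direction
-/

set_option autoImplicit false

namespace Pool.Agent.Helper10.FB.End2

open Pool.Agent.Helper25.FB Polynomial

lemma ift (f : ℂ × ℂ → ℂ) (hf : ContDiff ℂ 1 f) (u0 : ℂ) (h0 : f (0, u0) = 0)
    (hd : fderiv ℂ f (0, u0) (0, 1) ≠ 0) :
    ∃ (r C : ℝ) (V : ℂ → ℂ), 0 < r ∧ DifferentiableOn ℂ V (Metric.ball 0 r) ∧
      (∀ τ ∈ Metric.ball (0 : ℂ) r, ‖V τ‖ ≤ C) ∧ ∀ τ ∈ Metric.ball (0 : ℂ) r, f (τ, V τ) = 0 := by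
  set D := fderiv ℂ f (0, u0) with hD
  set c := D (1, 0) with hc
  set μ := D (0, 1) with hμ
  have hDap : ∀ x : ℂ × ℂ, D x = x.1 * c + x.2 * μ := by
    intro x
    have : x = x.1 • ((1, 0) : ℂ × ℂ) + x.2 • ((0, 1) : ℂ × ℂ) := by
      ext <;> simp
    conv_lhs => rw [this]
    rw [map_add, map_smul, map_smul, smul_eq_mul, smul_eq_mul]
  let F1 : ℂ × ℂ →L[ℂ] ℂ × ℂ := (ContinuousLinearMap.fst ℂ ℂ ℂ).prod D
  let F2 : ℂ × ℂ →L[ℂ] ℂ × ℂ := (ContinuousLinearMap.fst ℂ ℂ ℂ).prod
    (μ⁻¹ • (ContinuousLinearMap.snd ℂ ℂ ℂ - c • ContinuousLinearMap.fst ℂ ℂ ℂ))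
  have hF1 : ∀ x, F1 x = (x.1, x.1 * c + x.2 * μ) := by
    intro x
    simp only [F1, ContinuousLinearMap.prod_apply, ContinuousLinearMap.coe_fst', hDap]
  have hF2 : ∀ x, F2 x = (x.1, μ⁻¹ * (x.2 - c * x.1)) := by
    intro x
    simp [F2]
  let e : (ℂ × ℂ) ≃L[ℂ] (ℂ × ℂ) := ContinuousLinearEquiv.equivOfInverse F1 F2
    (fun x => by
      rw [hF2, hF1]
      ext
      · rfl
      · simp only
        field_simp
        ring)
    (fun x => by
      rw [hF1, hF2]
      ext
      · rfl
      · simp only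
        field_simp
        ring)
  let G : ℂ × ℂ → ℂ × ℂ := fun x => (x.1, f x)
  have hG : ContDiff ℂ 1 G := contDiff_fst.prodMk hf
  have hGd : HasFDerivAt G (e : ℂ × ℂ →L[ℂ] ℂ × ℂ) (0, u0) := by
    have h1 : HasFDerivAt f D (0, u0) := (hf.differentiable (by norm_num) _).hasFDerivAt
    have h2 : HasFDerivAt G ((ContinuousLinearMap.fst ℂ ℂ ℂ).prod D) (0, u0) :=
      hasFDerivAt_fst.prodMk h1
    exact h2
  have hGa : ContDiffAt ℂ 1 G (0, u0) := hG.contDiffAt
  have hloc := hGa.to_localInverse hGd one_ne_zero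
  have hGa0 : G (0, u0) = (0, 0) := by simp only [G, h0]
  rw [hGa0] at hloc
  set g := hGa.localInverse hGd one_ne_zero with hg
  have hright : ∀ᶠ y in nhds (G (0, u0)), G (g y) = y :=
    (hGa.hasStrictFDerivAt' hGd one_ne_zero).eventually_right_inverse
  rw [hGa0] at hright
  have hdiff : ∀ᶠ y in nhds ((0, 0) : ℂ × ℂ), DifferentiableAt ℂ g y := by
    have := hloc.eventually (by simp)
    exact this.mono (fun y hy => hy.differentiableAt one_ne_zero)
  have hcont : ∀ᶠ y in nhds ((0, 0) : ℂ × ℂ), ‖g y‖ < ‖g (0, 0)‖ + 1 :=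
    hloc.continuousAt.norm.eventually_lt continuousAt_const (by simp)
  have hall := (hright.and hdiff).and hcont
  rw [Metric.eventually_nhds_iff] at hall
  obtain ⟨r, hr, hball⟩ := hall
  have hin : ∀ τ ∈ Metric.ball (0 : ℂ) r, dist ((τ, 0) : ℂ × ℂ) (0, 0) < r := by
    intro τ hτ
    rw [Prod.dist_eq]
    simpa using hτ
  refine ⟨r, ‖g (0, 0)‖ + 1, fun τ => (g (τ, 0)).2, hr, ?_, ?_, ?_⟩
  · intro τ hτ
    have h1 := (hball (hin τ hτ)).1.2
    have h2 : DifferentiableAt ℂ (fun τ : ℂ => ((τ, 0) : ℂ × ℂ)) τ :=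
      differentiableAt_id.prodMk (differentiableAt_const _)
    exact ((h1.comp τ h2).snd).differentiableWithinAt
  · intro τ hτ
    have h1 := (hball (hin τ hτ)).2
    exact (norm_snd_le _).trans h1.le
  · intro τ hτ
    have h1 := (hball (hin τ hτ)).1.1
    have h2 : (g (τ, 0)).1 = τ := congrArg Prod.fst h1
    have h3 : f (g (τ, 0)) = 0 := congrArg Prod.snd h1
    have h4 : ((τ, (g (τ, 0)).2) : ℂ × ℂ) = g (τ, 0) := by
      ext
      · exact h2.symm
      · rfl
    simp only [h4, h3]

/-- the restriction to the line -/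
noncomputable def L (p q : ℂ) (Q : Pol) : Polynomial ℂ :=
  MvPolynomial.aeval ![C p - C ((starRingEnd ℂ) q) * X, C q + C ((starRingEnd ℂ) p) * X] Q

lemma L_eval (p q h : ℂ) (Q : Pol) : (L p q Q).eval h =
    MvPolynomial.eval ![p - (starRingEnd ℂ) q * h, q + (starRingEnd ℂ) p * h] Q := by
  unfold L
  induction Q using MvPolynomial.induction_on with
  | C a => simp
  | add f g hf hg => simp only [map_add, eval_add, hf, hg]
  | mul_X f i hf =>
    simp only [map_mul, eval_mul, hf, MvPolynomial.aeval_X, MvPolynomial.eval_X]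
    fin_cases i <;> simp

lemma L_der (p q : ℂ) (Q : Pol) : derivative (L p q Q) =
    L p q (MvPolynomial.pderiv 0 Q) * (-C ((starRingEnd ℂ) q)) +
      L p q (MvPolynomial.pderiv 1 Q) * C ((starRingEnd ℂ) p) := by
  unfold L
  induction Q using MvPolynomial.induction_on with
  | C a => simp
  | add f g hf hg =>
    simp only [map_add, hf, hg]
    ring
  | mul_X f i hf =>
    simp only [map_mul, derivative_mul, hf, MvPolynomial.aeval_X, Derivation.leibniz, smul_eq_mul,
      map_add]
    fin_cases i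
    · simp
      ring
    · simp
      ring

lemma eval_smul' {d : ℕ} {Q : Pol} (hQ : Q.IsHomogeneous d) (s : ℂ) (x : Fin 2 → ℂ) :
    MvPolynomial.eval (fun i => s * x i) Q = s ^ d * MvPolynomial.eval x Q := by
  rw [MvPolynomial.eval_eq, MvPolynomial.eval_eq, Finset.mul_sum]
  apply Finset.sum_congr rfl
  intro e he
  have h1 : e.degree = d := by
    have := hQ (MvPolynomial.mem_support_iff.1 he)
    rw [← this]
    exact congrFun (congrArg DFunLike.coe (Finsupp.degree_eq_weight_one (σ := Fin 2) (R := ℕ))) e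
  have h2 : ∏ i ∈ e.support, (s * x i) ^ e i = s ^ d * ∏ i ∈ e.support, x i ^ e i := by
    simp_rw [mul_pow]
    rw [Finset.prod_mul_distrib, Finset.prod_pow_eq_pow_sum]
    congr 2
  rw [h2]
  ring

theorem main : S_END2 := by
  intro P p q hRed hpq hzero
  have hne : (![p, q] : Fin 2 → ℂ) ≠ 0 := by
    intro h
    have h0 := congrFun h 0
    have h1 := congrFun h 1
    simp at h0 h1
    rw [h0, h1] at hpq
    simp at hpq
  obtain ⟨i, hi⟩ := hRed _ hne hzero
  set m := P.totalDegree with hm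
  have hm0 : m ≠ 0 := by
    intro h
    apply hi
    unfold lead
    rw [← hm, h, MvPolynomial.homogeneousComponent_zero]
    simp
  have hhom : (lead P).IsHomogeneous m := MvPolynomial.homogeneousComponent_isHomogeneous _ _
  set A := L p q (lead P) with hA
  have hA0 : A.coeff 0 = 0 := by
    rw [coeff_zero_eq_eval_zero, hA, L_eval]
    simpa using hzero
  have hAX : A = A.divX * X := by
    have := A.divX_mul_X_add
    rw [hA0, map_zero, add_zero] at this
    exact this.symm
  set μ := A.divX.eval 0 with hμ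
  have hμ1 : μ = MvPolynomial.eval ![p, q] (MvPolynomial.pderiv 0 (lead P)) *
      (-(starRingEnd ℂ) q) + MvPolynomial.eval ![p, q] (MvPolynomial.pderiv 1 (lead P)) *
      (starRingEnd ℂ) p := by
    have h1 : μ = (derivative A).eval 0 := by
      rw [hμ, ← coeff_zero_eq_eval_zero, ← coeff_zero_eq_eval_zero, coeff_divX,
        coeff_derivative]
      simp
    rw [h1, hA, L_der, eval_add, eval_mul, eval_mul, L_eval, L_eval]
    simp
  have hμ0 : μ ≠ 0 := by
    intro h0
    have hE := congrArg (MvPolynomial.eval ![p, q]) hhom.sum_X_mul_pderiv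
    rw [Fin.sum_univ_two] at hE
    simp only [map_add, map_mul, MvPolynomial.eval_X, map_nsmul, hzero, smul_zero,
      Matrix.cons_val_zero, Matrix.cons_val_one] at hE
    rw [h0] at hμ1
    set a := MvPolynomial.eval ![p, q] (MvPolynomial.pderiv 0 (lead P)) with ha
    set b := MvPolynomial.eval ![p, q] (MvPolynomial.pderiv 1 (lead P)) with hb
    have hn : (starRingEnd ℂ) p * p + (starRingEnd ℂ) q * q = 1 := by
      rw [← Complex.normSq_eq_conj_mul_self, ← Complex.normSq_eq_conj_mul_self,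
        Complex.normSq_eq_norm_sq, Complex.normSq_eq_norm_sq]
      exact_mod_cast hpq
    have ha0 : a = 0 := by
      have : a = ((starRingEnd ℂ) p * p + (starRingEnd ℂ) q * q) * a := by rw [hn, one_mul]
      rw [this]
      linear_combination (starRingEnd ℂ) p * hE + q * hμ1
    have hb0 : b = 0 := by
      have : b = ((starRingEnd ℂ) p * p + (starRingEnd ℂ) q * q) * b := by rw [hn, one_mul]
      rw [this]
      linear_combination (starRingEnd ℂ) q * hE - p * hμ1
    apply hi
    fin_cases i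
    · exact ha0
    · exact hb0
  -- the function
  let K : ℂ → ℂ → ℂ := fun τ h => ∑ d ∈ Finset.range m,
    τ ^ (m - 1 - d) * (L p q (MvPolynomial.homogeneousComponent d P)).eval h
  let f : ℂ × ℂ → ℂ := fun x => x.2 * A.divX.eval (x.1 * x.2) + K x.1 (x.1 * x.2)
  have hf : ContDiff ℂ 1 f := by
    have hmul : ContDiff ℂ 1 (fun x : ℂ × ℂ => x.1 * x.2) := contDiff_fst.mul contDiff_snd
    have hpol : ∀ Q : Polynomial ℂ, ContDiff ℂ 1 (fun x : ℂ × ℂ => Q.eval (x.1 * x.2)) :=
      fun Q => by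
        have h1 : ContDiff ℂ 1 (fun x : ℂ => Q.eval x) := by
          simpa using Q.contDiff_aeval (𝕜 := ℂ) (n := 1)
        exact h1.comp hmul
    refine (contDiff_snd.mul (hpol _)).add ?_
    apply ContDiff.sum
    intro d _
    exact (contDiff_fst.pow _).mul (hpol _)
  have hf0 : ∀ u : ℂ, f (0, u) = μ * u + K 0 0 := by
    intro u
    simp only [f, zero_mul]
    rw [hμ]
    ring
  set u0 := -(K 0 0) / μ with hu0
  have hfu0 : f (0, u0) = 0 := by
    rw [hf0, hu0]
    field_simp
    ring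
  have hder : fderiv ℂ f (0, u0) (0, 1) ≠ 0 := by
    have h1 : HasFDerivAt f (fderiv ℂ f (0, u0)) (0, u0) :=
      (hf.differentiable (by norm_num) _).hasFDerivAt
    have h2 : HasDerivAt (fun u : ℂ => ((0, u) : ℂ × ℂ)) (0, 1) u0 :=
      (hasDerivAt_const u0 (0 : ℂ)).prodMk (hasDerivAt_id u0)
    have h3 : HasDerivAt (fun u : ℂ => f (0, u)) (fderiv ℂ f (0, u0) (0, 1)) u0 :=
      h1.comp_hasDerivAt u0 h2
    have h4 : HasDerivAt (fun u : ℂ => f (0, u)) μ u0 := by
      have : (fun u : ℂ => f (0, u)) = fun u => μ * u + K 0 0 := funext hf0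
      rw [this]
      simpa using ((hasDerivAt_id u0).const_mul μ).add_const (K 0 0)
    rw [h3.unique h4]
    exact hμ0
  obtain ⟨r, C, V, hr, hV, hC, hVf⟩ := ift f hf u0 hfu0 hder
  refine ⟨r, C, V, hr, hV, hC, ?_⟩
  intro s hs
  have hs0 : s ≠ 0 := by
    rintro rfl
    rw [norm_zero] at hs
    exact absurd hs (not_lt.2 (inv_pos.2 hr).le)
  have hτ : s⁻¹ ∈ Metric.ball (0 : ℂ) r := by
    rw [mem_ball_zero_iff, norm_inv]
    exact inv_lt_of_inv_lt₀ hr hs
  have hkey := hVf _ hτ
  set τ := s⁻¹ with hτdef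
  set v := V τ with hv
  have hww : ww p q V s = fun i => s * (![p - (starRingEnd ℂ) q * (τ * v),
      q + (starRingEnd ℂ) p * (τ * v)] : Fin 2 → ℂ) i := by
    funext i
    unfold ww
    have hst : s * τ = 1 := mul_inv_cancel₀ hs0
    fin_cases i
    · simp only [Fin.zero_eta, Matrix.cons_val_zero]
      rw [← hτdef, ← hv]
      linear_combination (v * (starRingEnd ℂ) q) * hst
    · simp only [Fin.mk_one, Matrix.cons_val_one, Matrix.cons_val_fin_one]
      rw [← hτdef, ← hv]
      linear_combination (-(v * (starRingEnd ℂ) p)) * hst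
  have hcomp : ∀ d, MvPolynomial.eval (ww p q V s) (MvPolynomial.homogeneousComponent d P) =
      s ^ d * (L p q (MvPolynomial.homogeneousComponent d P)).eval (τ * v) := by
    intro d
    rw [hww, eval_smul' (MvPolynomial.homogeneousComponent_isHomogeneous d P), L_eval]
  have hsum : MvPolynomial.eval (ww p q V s) P = ∑ d ∈ Finset.range (m + 1),
      s ^ d * (L p q (MvPolynomial.homogeneousComponent d P)).eval (τ * v) := by
    conv_lhs => rw [← MvPolynomial.sum_homogeneousComponent P]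
    rw [map_sum]
    exact Finset.sum_congr rfl (fun d _ => hcomp d)
  have htop : (L p q (MvPolynomial.homogeneousComponent m P)).eval (τ * v) =
      τ * (v * A.divX.eval (τ * v)) := by
    have h1 : L p q (MvPolynomial.homogeneousComponent m P) = A := rfl
    rw [h1]
    conv_lhs => rw [hAX]
    rw [eval_mul, eval_X]
    ring
  have hst : s * τ = 1 := mul_inv_cancel₀ hs0
  have hfin : MvPolynomial.eval (ww p q V s) P = s ^ (m - 1) * f (τ, v) := by
    rw [hsum, Finset.sum_range_succ, htop]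
    simp only [f, K]
    rw [mul_add, Finset.mul_sum, add_comm]
    congr 1
    · have : s ^ m = s ^ (m - 1) * s := by
        rw [← pow_succ, Nat.sub_add_cancel (Nat.one_le_iff_ne_zero.2 hm0)]
      rw [this]
      linear_combination (s ^ (m - 1) * (v * A.divX.eval (τ * v))) * hst
    · apply Finset.sum_congr rfl
      intro d hd
      have hd' := Finset.mem_range.1 hd
      have : s ^ (m - 1) * τ ^ (m - 1 - d) = s ^ d := by
        have h1 : s ^ (m - 1) = s ^ d * s ^ (m - 1 - d) := by
          rw [← pow_add]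
          congr 1
          omega
        rw [h1, mul_assoc, ← mul_pow, hst, one_pow, mul_one]
      rw [← this]
      ring
  rw [hfin, hkey, mul_zero]

end Pool.Agent.Helper10.FB.End2

theorem Pool.Agent.Helper25.FB.end2_thm : Pool.Agent.Helper25.FB.S_END2 :=
  Pool.Agent.Helper10.FB.End2.main
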