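import Pool.Agent.Helper25.FB.Spec

/-!
# Part ROOT: the ends give all points with a large first coordinate
-/

set_option autoImplicit false

namespace Pool.Agent.Helper10.FB.Root

open Pool.Agent.Helper25.FB Filter Topology

lemma loc (p q : ℂ) (hp : p ≠ 0) (V : ℂ → ℂ) (r : ℝ) (hr : 0 < r)
    (hV : DifferentiableOn ℂ V (Metric.ball 0 r)) (ε δ : ℝ) (hε : 0 < ε) (hδ : 0 < δ) :
    ∃ η : ℝ, 0 < η ∧ ∀ x : ℂ, η⁻¹ < ‖x‖ → ∃ τ : ℂ, τ ≠ 0 ∧ ‖τ‖ < δ ∧
      p * τ⁻¹ - V τ * (starRingEnd ℂ) q = x ∧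
      ‖(q * τ⁻¹ + V τ * (starRingEnd ℂ) p) / x - q / p‖ < ε := by
  set D : ℂ → ℂ := fun τ => p - τ * V τ * (starRingEnd ℂ) q with hD
  set N : ℂ → ℂ := fun τ => q + τ * V τ * (starRingEnd ℂ) p with hN
  have hVa : AnalyticAt ℂ V 0 := hV.analyticAt (Metric.ball_mem_nhds _ hr)
  have hDa : AnalyticAt ℂ D 0 :=
    analyticAt_const.sub ((analyticAt_id.mul hVa).mul analyticAt_const)
  have hNa : AnalyticAt ℂ N 0 :=
    analyticAt_const.add ((analyticAt_id.mul hVa).mul analyticAt_const)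
  have hD0 : D 0 = p := by simp [hD]
  have hN0 : N 0 = q := by simp [hN]
  have hDne : D 0 ≠ 0 := by rw [hD0]; exact hp
  have hha : AnalyticAt ℂ (fun τ => τ / D τ) 0 := analyticAt_id.div hDa hDne
  have hder : deriv (fun τ => τ / D τ) 0 ≠ 0 := by
    have h1 := (hasDerivAt_id (0 : ℂ)).div hDa.differentiableAt.hasDerivAt hDne
    have h2 : HasDerivAt (fun τ => τ / D τ)
        ((1 * D 0 - id (0 : ℂ) * deriv D 0) / D 0 ^ 2) 0 := h1
    rw [h2.deriv, hD0]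
    simp [hp]
  have hmap := hha.hasStrictDerivAt.map_nhds_eq hder
  simp only [zero_div] at hmap
  have hU : ∀ᶠ τ in 𝓝 (0 : ℂ), ‖τ‖ < δ ∧ D τ ≠ 0 ∧ ‖N τ / D τ - q / p‖ < ε := by
    have h1 : ∀ᶠ τ in 𝓝 (0 : ℂ), ‖τ‖ < δ := by
      have := Metric.ball_mem_nhds (0 : ℂ) hδ
      filter_upwards [this] with τ hτ
      simpa using hτ
    have h2 : ∀ᶠ τ in 𝓝 (0 : ℂ), D τ ≠ 0 := hDa.continuousAt.eventually_ne hDne
    have h3 : ContinuousAt (fun τ => N τ / D τ) 0 := (hNa.continuousAt).div hDa.continuousAt hDne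
    have h4 : ∀ᶠ τ in 𝓝 (0 : ℂ), ‖N τ / D τ - q / p‖ < ε := by
      have h5 : Tendsto (fun τ => ‖N τ / D τ - q / p‖) (𝓝 0) (𝓝 0) := by
        have h6 : Tendsto (fun τ => N τ / D τ) (𝓝 0) (𝓝 (q / p)) := by
          have := h3.tendsto
          rwa [hN0, hD0] at this
        have h7 := (h6.sub_const (q / p)).norm
        simpa using h7
      exact h5.eventually (gt_mem_nhds hε)
    filter_upwards [h1, h2, h4] with τ a b c
    exact ⟨a, b, c⟩
  have himg : (fun τ => τ / D τ) '' {τ | ‖τ‖ < δ ∧ D τ ≠ 0 ∧ ‖N τ / D τ - q / p‖ < ε} ∈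
      𝓝 (0 : ℂ) := by
    rw [← hmap]
    exact Filter.image_mem_map hU
  rw [Metric.mem_nhds_iff] at himg
  obtain ⟨η, hη, hball⟩ := himg
  refine ⟨η, hη, ?_⟩
  intro x hx
  have hx0 : x ≠ 0 := by
    rintro rfl
    rw [norm_zero] at hx
    exact absurd hx (not_lt.2 (inv_pos.2 hη).le)
  have hxb : x⁻¹ ∈ Metric.ball (0 : ℂ) η := by
    rw [mem_ball_zero_iff, norm_inv]
    exact inv_lt_of_inv_lt₀ hη hx
  obtain ⟨τ, ⟨h1, h2, h3⟩, h4⟩ := hball hxb
  simp only at h4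
  have hτ0 : τ ≠ 0 := by
    rintro rfl
    rw [zero_div] at h4
    exact inv_ne_zero hx0 h4.symm
  have hxe : x = D τ / τ := by
    rw [← inv_inj, ← h4, inv_div]
  refine ⟨τ, hτ0, h1, ?_, ?_⟩
  · rw [hxe, hD]
    field_simp
  · have h5 : (q * τ⁻¹ + V τ * (starRingEnd ℂ) p) / x = N τ / D τ := by
      rw [hxe, hN]
      field_simp
    rw [h5]
    exact h3

lemma exists_lower {ι : Type*} [Finite ι] (f : ι → ℝ) (hf : ∀ i, 0 < f i) :
    ∃ c : ℝ, 0 < c ∧ ∀ i, c ≤ f i := by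
  cases isEmpty_or_nonempty ι with
  | inl h => exact ⟨1, one_pos, fun i => (h.false i).elim⟩
  | inr h =>
    obtain ⟨i, hi⟩ := Finite.exists_min f
    exact ⟨f i, hf i, hi⟩

theorem main : S_ROOT := by
  classical
  intro P m E
  obtain ⟨c0, hc0, hc0'⟩ := exists_lower
    (fun jk : Fin m × Fin m => if jk.1 = jk.2 then (1 : ℝ) else
      ‖E.q jk.1 / E.p jk.1 - E.q jk.2 / E.p jk.2‖) (by
    intro jk
    split_ifs with h
    · exact one_pos
    · rw [norm_pos_iff, sub_ne_zero]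
      intro h1
      rw [div_eq_div_iff (E.pne _) (E.pne _)] at h1
      apply E.slope jk.1 jk.2 h
      rw [mul_comm (E.p jk.1), mul_comm (E.p jk.2), ← h1])
  set c := c0 / 3 with hc
  have hcpos : 0 < c := by positivity
  refine ⟨c, ∑ j, (‖E.q j / E.p j‖ + c), hcpos, ?_⟩
  intro ρ₁
  have hδ : 0 < min E.r (1 / (|ρ₁| + 1)) := lt_min E.r0 (by positivity)
  choose η hη hloc using fun j => loc (E.p j) (E.q j) (E.pne j) (E.V j) E.r E.r0 (E.hol j) c
    (min E.r (1 / (|ρ₁| + 1))) hcpos hδ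
  refine ⟨∑ j, (η j)⁻¹, ?_⟩
  intro x hx
  have hx' : ∀ j, (η j)⁻¹ < ‖(starRingEnd ℂ) x‖ := by
    intro j
    rw [RCLike.norm_conj]
    refine lt_of_le_of_lt ?_ hx
    exact Finset.single_le_sum (f := fun j => (η j)⁻¹) (fun i _ => (inv_pos.2 (hη i)).le)
      (Finset.mem_univ j)
  choose τ hτ0 hτδ hτx hτR using fun j => hloc j _ (hx' j)
  have hx0 : 0 < ‖x‖ :=
    lt_of_le_of_lt (Finset.sum_nonneg (fun i _ => (inv_pos.2 (hη i)).le)) hx
  have hxne : (starRingEnd ℂ) x ≠ 0 := by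
    intro h
    rw [← norm_eq_zero, RCLike.norm_conj] at h
    exact hx0.ne' h
  have hw0 : ∀ j, E.w j (τ j)⁻¹ 0 = (starRingEnd ℂ) x := by
    intro j
    unfold Ends.w ww
    simp only [Matrix.cons_val_zero, inv_inv]
    exact hτx j
  have hw1 : ∀ j, E.w j (τ j)⁻¹ 1 = (starRingEnd ℂ) x *
      ((E.q j * (τ j)⁻¹ + E.V j (τ j) * (starRingEnd ℂ) (E.p j)) / (starRingEnd ℂ) x) := by
    intro j
    unfold Ends.w ww
    simp only [Matrix.cons_val_one, Matrix.cons_val_fin_one, inv_inv]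
    field_simp
  have hz : ∀ j a, E.z j ((starRingEnd ℂ) (τ j)⁻¹) a = (starRingEnd ℂ) (E.w j (τ j)⁻¹ a) := by
    intro j a
    unfold Ends.z
    rw [Complex.conj_conj]
  refine ⟨fun j => (starRingEnd ℂ) (τ j)⁻¹, ?_, ?_⟩
  · intro j
    refine ⟨?_, ?_, ?_, ?_⟩
    · rw [RCLike.norm_conj, norm_inv]
      have h1 : ‖τ j‖ < 1 / (|ρ₁| + 1) := lt_of_lt_of_le (hτδ j) (min_le_right _ _)
      have h2 : 0 < ‖τ j‖ := norm_pos_iff.2 (hτ0 j)
      have h3 : |ρ₁| + 1 < ‖τ j‖⁻¹ := by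
        rw [lt_inv_comm₀ (by positivity) h2, ← one_div]
        exact h1
      linarith [le_abs_self ρ₁]
    · rw [hz, hw0, Complex.conj_conj]
    · rw [hz, RCLike.norm_conj, hw1, norm_mul, RCLike.norm_conj, mul_comm]
      apply mul_le_mul_of_nonneg_right _ hx0.le
      have h1 := norm_sub_norm_le ((E.q j * (τ j)⁻¹ + E.V j (τ j) * (starRingEnd ℂ) (E.p j)) /
        (starRingEnd ℂ) x) (E.q j / E.p j)
      have h2 := hτR j
      have h3 : ‖E.q j / E.p j‖ + c ≤ ∑ j, (‖E.q j / E.p j‖ + c) :=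
        Finset.single_le_sum (f := fun j => ‖E.q j / E.p j‖ + c)
          (fun i _ => add_nonneg (norm_nonneg _) hcpos.le) (Finset.mem_univ j)
      linarith
    · have h1 : E.z j ((starRingEnd ℂ) (τ j)⁻¹) =
          fun a => (starRingEnd ℂ) (E.w j (τ j)⁻¹ a) := funext (hz j)
      rw [h1]
      have h0 : Inj.star P = Inj.conjP P := rfl
      rw [h0, Inj.conj_eval]
      simp only [Complex.conj_conj]
      have h2 : MvPolynomial.eval (E.w j (τ j)⁻¹) P = 0 := by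
        apply E.zero j
        rw [norm_inv]
        have h3 : ‖τ j‖ < E.r := lt_of_lt_of_le (hτδ j) (min_le_left _ _)
        have h4 : 0 < ‖τ j‖ := norm_pos_iff.2 (hτ0 j)
        exact inv_strictAnti₀ h4 h3
      rw [h2, map_zero]
  · intro j k hjk
    rw [hz, hz, ← map_sub, RCLike.norm_conj, hw1, hw1, ← mul_sub, norm_mul, RCLike.norm_conj,
      mul_comm]
    apply mul_le_mul_of_nonneg_left _ hx0.le
    have h1 := hc0' (j, k)
    simp only [hjk, if_false] at h1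
    set A := (E.q j * (τ j)⁻¹ + E.V j (τ j) * (starRingEnd ℂ) (E.p j)) / (starRingEnd ℂ) x
    set B := (E.q k * (τ k)⁻¹ + E.V k (τ k) * (starRingEnd ℂ) (E.p k)) / (starRingEnd ℂ) x
    have h2 : ‖A - E.q j / E.p j‖ < c := hτR j
    have h3 : ‖B - E.q k / E.p k‖ < c := hτR k
    have h4 : ‖E.q j / E.p j - E.q k / E.p k‖ ≤
        ‖A - E.q j / E.p j‖ + ‖A - B‖ + ‖B - E.q k / E.p k‖ := by
      have h5 : E.q j / E.p j - E.q k / E.p k =
          -(A - E.q j / E.p j) + (A - B) + (B - E.q k / E.p k) := by ring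
      rw [h5]
      refine (norm_add_le _ _).trans ?_
      have h6 := norm_add_le (-(A - E.q j / E.p j)) (A - B)
      rw [norm_neg] at h6
      linarith
    have h7 : c0 = 3 * c := by rw [hc]; ring
    linarith

end Pool.Agent.Helper10.FB.Root

theorem Pool.Agent.Helper25.FB.root_thm : Pool.Agent.Helper25.FB.S_ROOT :=
  Pool.Agent.Helper10.FB.Root.main
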